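import Pool.Agent.Y861.TE.Three

/-!
# Anticommutative 3-Engel algebras over commutative rings

The starting file `CharNotTwoThree` proves that anticommutative 3-Engel algebras over a field of
characteristic different from two and three are locally nilpotent.  Here the coefficients form an
arbitrary commutative ring, the only hypothesis is that the algebra has no elements of additive
order two or three, and the nilpotency class is bounded by a function of the number of the
generators alone: it depends neither on the algebra nor on the coefficient ring (in particular not
on the characteristic).  As a consequence, for a commutative ring `R` in which two is invertible,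
all anticommutative 3-Engel `R`-algebras are locally nilpotent if and only if three is invertible
in `R`.

The structure theory of the starting files (`Pool.Agent.TH36.E3.prod4`,
`Pool.Agent.H461R3.E3`) is used.  New: the maximal ideals with a quotient that is not nilpotent are
replaced by maximal isolated ideals, and the uniform bound follows from local nilpotency of
products of algebras.
-/

set_option autoImplicit false

namespace Pool.Agent.Results.MP_1664c7_al.AllCoefficientRings

open Pool.Agent.H461R3.E3 (Anticommutative ThreeEngel IsProd)

universe u v

/-- The `R`-algebra `A` is locally nilpotent: for every finite set `S` of elements there is an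
`N ≥ 1` such that every product of `N` elements of the subalgebra generated by `S`, with any
arrangement of parentheses, vanishes. -/
def LocallyNilpotent (R : Type u) [CommRing R] (A : Type v) [NonUnitalNonAssocRing A] [Module R A]
    [IsScalarTower R A A] [SMulCommClass R A A] : Prop :=
  ∀ S : Finset A, ∃ N, 1 ≤ N ∧ ∀ x : A,
    IsProd (NonUnitalAlgebra.adjoin R (S : Set A) : Set A) N x → x = 0

/-- (1) There is a function `f` such that for every commutative ring `R` and every anticommutative
3-Engel `R`-algebra `A` without elements of additive order two or three, every product of
`f (card S)` elements of the subalgebra generated by the finite set `S`, with any arrangement of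
parentheses, vanishes.
(2) In particular every such algebra is locally nilpotent.
(3) For a commutative ring `R` in which two is invertible, all anticommutative 3-Engel
`R`-algebras are locally nilpotent if and only if three is invertible in `R`. -/
theorem result :
    (∃ f : ℕ → ℕ, (∀ r, 1 ≤ f r) ∧
      ∀ (R : Type u) [CommRing R] (A : Type v) [NonUnitalNonAssocRing A] [Module R A]
        [IsScalarTower R A A] [SMulCommClass R A A],
        (∀ x : A, x + x = 0 → x = 0) → (∀ x : A, x + x + x = 0 → x = 0) →
        Anticommutative A → ThreeEngel A → ∀ (S : Finset A) (x : A),
        IsProd (NonUnitalAlgebra.adjoin R (S : Set A) : Set A) (f S.card) x → x = 0) ∧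
    (∀ (R : Type u) [CommRing R] (A : Type v) [NonUnitalNonAssocRing A] [Module R A]
        [IsScalarTower R A A] [SMulCommClass R A A],
        (∀ x : A, x + x = 0 → x = 0) → (∀ x : A, x + x + x = 0 → x = 0) →
        Anticommutative A → ThreeEngel A → LocallyNilpotent R A) ∧
    (∀ (R : Type u) [CommRing R], IsUnit (2 : R) →
      ((∀ (A : Type u) [NonUnitalNonAssocRing A] [Module R A] [IsScalarTower R A A]
        [SMulCommClass R A A], Anticommutative A → ThreeEngel A → LocallyNilpotent R A) ↔
        IsUnit (3 : R))) := by
  refine ⟨Pool.Agent.Y861.TE.main.{u, v}, ?_, ?_⟩
  · intro R _ A _ _ _ _ t2 t3 h0 h1 S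
    obtain ⟨f, hf1, hf⟩ := Pool.Agent.Y861.TE.main.{u, v}
    exact ⟨f S.card, hf1 _, hf R A t2 t3 h0 h1 S⟩
  · intro R _ h2
    constructor
    · intro h
      by_contra h3
      obtain ⟨A, i1, i2, i3, i4, h0, h1, hno⟩ := Pool.Agent.Y861.TE.three R h3
      exact hno (h A h0 h1)
    · intro h3 A _ _ _ _ h0 h1 S
      obtain ⟨f, hf1, hf⟩ := Pool.Agent.Y861.TE.main.{u, u}
      refine ⟨f S.card, hf1 _, hf R A ?_ ?_ h0 h1 S⟩
      · intro x hx
        obtain ⟨c, hc⟩ := h2.exists_left_inv
        have e : x = c • (x + x) := by
          have : x + x = (2 : R) • x := by module
          rw [this, smul_smul, hc, one_smul]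
        rw [e, hx, smul_zero]
      · intro x hx
        obtain ⟨c, hc⟩ := h3.exists_left_inv
        have e : x = c • (x + x + x) := by
          have : x + x + x = (3 : R) • x := by module
          rw [this, smul_smul, hc, one_smul]
        rw [e, hx, smul_zero]

end Pool.Agent.Results.MP_1664c7_al.AllCoefficientRings
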